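import Pool.Agent.H81.BoxSplit

set_option autoImplicit false

/-!
The problem in dimensions one, two and three, for all `n` and all `k ≥ 2`: in every direction some
hyperplane meets at least half and misses at least half of `2 ^ d` members.
-/

namespace Pool.Agent.Results.MP_4a756a_co.DimensionThree

open Pool.Agent.H40.Box Pool.Agent.H81.BoxSplit

/-- **Main result.** Let `1 ≤ d ≤ 3`, `2 ≤ k ≤ n`, and let `S 0, ..., S (m-1)` be pairwise disjoint
boxes in `[n]^d` with nonempty sides such that every axis-parallel line meets at least `k` of them.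
Then in every direction `i` there is a value `a` such that at least `2 ^ (d - 1)` of the boxes meet
the hyperplane `x_i = a` and at least `2 ^ (d - 1)` of the boxes miss it. In particular
`2 ^ d ≤ m`. -/
theorem result (n d k m : ℕ) (hd1 : 1 ≤ d) (hd3 : d ≤ 3) (hk : 2 ≤ k) (hkn : k ≤ n)
    (S : Fin m → Fin d → Finset (Fin n))
    (hne : ∀ j i, (S j i).Nonempty)
    (hdis : ∀ j j', j ≠ j' → ∀ x : Fin d → Fin n,
      ¬ ((∀ l, x l ∈ S j l) ∧ (∀ l, x l ∈ S j' l)))
    (hp : ∀ (i : Fin d) (x : Fin d → Fin n),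
      k ≤ (Finset.univ.filter
        (fun j : Fin m => ∃ t : Fin n, ∀ l : Fin d, Function.update x i t l ∈ S j l)).card) :
    (∀ i : Fin d, ∃ a : Fin n,
      2 ^ (d - 1) ≤ (Finset.univ.filter (fun j : Fin m => a ∈ S j i)).card ∧
      2 ^ (d - 1) ≤ (Finset.univ.filter (fun j : Fin m => a ∉ S j i)).card) ∧
    2 ^ d ≤ m := by
  have hnn : Nonempty (Fin n) := ⟨⟨0, by omega⟩⟩
  have hgood : Good 2 d (Finset.univ : Finset (Fin m)) S := by
    refine ⟨fun j _ i => hne j i, fun j _ j' _ h x => hdis j j' h x, fun i x => ?_⟩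
    exact ⟨_, Finset.subset_univ _, hk.trans (hp i x), fun j hj => (Finset.mem_filter.1 hj).2⟩
  have hmain := fun i => split_le_three hgood hd3 i
  refine ⟨hmain, ?_⟩
  obtain ⟨a, h1, h2⟩ := hmain ⟨0, hd1⟩
  have h3 := split_card (F := (Finset.univ : Finset (Fin m))) (S := S) ⟨0, hd1⟩ a
  rw [Finset.card_univ, Fintype.card_fin] at h3
  have h4 : 2 ^ d = 2 ^ (d - 1) + 2 ^ (d - 1) := by
    rw [← two_mul, ← pow_succ']
    congr 1
    omega
  omega

end Pool.Agent.Results.MP_4a756a_co.DimensionThree
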