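import Pool.Agent.H37.Box.Bound

/-!
An entropy lower bound for the number of pairwise disjoint boxes with the `k`-piercing property.
-/

namespace Pool.Agent.Results.MP_4a756a_co.EntropyBound

open Pool.Agent.H37.Box

/-- **Main result.** Let `1 ≤ d`, `1 ≤ k ≤ n`, and let `S 0, ..., S (m-1)` be pairwise disjoint
boxes in `[n]^d` with nonempty sides such that every axis-parallel line meets at least `k` of them.
Put `q = n - k + 1`. Then `n ^ (n d) ≤ m ^ n * q ^ (q d)`, that is,
`m ≥ (n ^ n / q ^ q) ^ (d / n)`. In particular `m ≥ 2 ^ d` holds as soon as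
`2 ^ n * q ^ q ≤ n ^ n`, for example if `2 ^ n ≤ n ^ (k - 1)`, or if `k = 3` and `n ≤ 8`, or if
`k = 4` and `n ≤ 15`. -/
theorem result (n d k m : ℕ) (hd : 1 ≤ d) (hk : 1 ≤ k) (hkn : k ≤ n)
    (S : Fin m → Fin d → Finset (Fin n))
    (hne : ∀ j i, (S j i).Nonempty)
    (hdis : ∀ j j', j ≠ j' → ∀ x : Fin d → Fin n,
      ¬ ((∀ l, x l ∈ S j l) ∧ (∀ l, x l ∈ S j' l)))
    (hp : ∀ (i : Fin d) (x : Fin d → Fin n),
      k ≤ (Finset.univ.filter
        (fun j : Fin m => ∃ t : Fin n, ∀ l : Fin d, Function.update x i t l ∈ S j l)).card) :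
    n ^ (n * d) ≤ m ^ n * (n - k + 1) ^ ((n - k + 1) * d) ∧
    (2 ^ n * (n - k + 1) ^ (n - k + 1) ≤ n ^ n → 2 ^ d ≤ m) ∧
    (2 ^ n ≤ n ^ (k - 1) → 2 ^ d ≤ m) ∧
    (k = 3 ∧ n ≤ 8 ∨ k = 4 ∧ n ≤ 15 → 2 ^ d ≤ m) := by
  classical
  have hn : 0 < n := by omega
  have hp' : ∀ (i : Fin d) (x : Fin d → Fin n), k ≤ (hit S i x).card := by
    intro i x
    have h := hp i x
    have he : hit S i x = Finset.univ.filter
        (fun j : Fin m => ∃ t : Fin n, ∀ l : Fin d, Function.update x i t l ∈ S j l) := by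
      unfold hit
      ext j
      simp only [Finset.mem_filter, Finset.mem_univ, true_and, mem_box]
    rw [he]
    exact h
  have hdis' : ∀ j j', j ≠ j' → ∀ x : Fin d → Fin n, ¬ (x ∈ box S j ∧ x ∈ box S j') := by
    intro j j' hjj' x
    rw [mem_box, mem_box]
    exact hdis j j' hjj' x
  have hm : 0 < m := by
    have h := hp ⟨0, by omega⟩ (fun _ => ⟨0, hn⟩)
    by_contra hcon
    have : m = 0 := by omega
    subst this
    rw [Finset.univ_eq_empty, Finset.filter_empty, Finset.card_empty] at h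
    omega
  have hent := entropy_bound hk hne hdis' hp' hn hm
  have hn' : (0 : ℝ) < n := by exact_mod_cast hn
  have hm' : (0 : ℝ) < m := by exact_mod_cast hm
  obtain ⟨q, hq⟩ : ∃ q, q = n - k + 1 := ⟨_, rfl⟩
  rw [← hq]
  have hq0 : 0 < q := by omega
  have hq' : (0 : ℝ) < q := by exact_mod_cast hq0
  have hqr : (n : ℝ) - ((k : ℝ) - 1) = q := by
    have : q + k = n + 1 := by omega
    have : (q : ℝ) + k = n + 1 := by exact_mod_cast this
    linarith
  have h1 : n ^ (n * d) ≤ m ^ n * q ^ (q * d) := by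
    have h2 : Real.log ((n : ℝ) ^ (n * d)) ≤ Real.log ((m : ℝ) ^ n * (q : ℝ) ^ (q * d)) := by
      rw [Real.log_mul (by positivity) (by positivity), Real.log_pow, Real.log_pow, Real.log_pow]
      unfold ent at hent
      rw [hqr] at hent
      have h3 := mul_le_mul_of_nonneg_left hent hn'.le
      have h4 : (n : ℝ) * ((d : ℝ) * (Real.log n - (q : ℝ) / n * Real.log q)) =
          (n : ℝ) * d * Real.log n - q * d * Real.log q := by
        field_simp
      rw [h4] at h3
      push_cast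
      linarith
    have h5 := (Real.log_le_log_iff (by positivity) (by positivity)).1 h2
    exact_mod_cast h5
  have h6 : 2 ^ n * q ^ q ≤ n ^ n → 2 ^ d ≤ m := by
    intro h
    have h7 : (2 ^ d) ^ n * q ^ (q * d) ≤ m ^ n * q ^ (q * d) := by
      calc (2 ^ d) ^ n * q ^ (q * d) = (2 ^ n * q ^ q) ^ d := by
            rw [mul_pow, ← pow_mul, ← pow_mul, ← pow_mul, mul_comm d n]
        _ ≤ (n ^ n) ^ d := Nat.pow_le_pow_left h d
        _ = n ^ (n * d) := by rw [← pow_mul]
        _ ≤ _ := h1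
    have h8 : (2 ^ d) ^ n ≤ m ^ n := Nat.le_of_mul_le_mul_right h7 (by positivity)
    exact (Nat.pow_le_pow_iff_left hn.ne').1 h8
  refine ⟨h1, h6, ?_, ?_⟩
  swap
  · rintro (⟨rfl, h⟩ | ⟨rfl, h⟩)
    · apply h6
      rw [hq]
      interval_cases n <;> norm_num
    · apply h6
      rw [hq]
      interval_cases n <;> norm_num
  intro h
  apply h6
  calc 2 ^ n * q ^ q ≤ n ^ (k - 1) * n ^ q :=
        Nat.mul_le_mul h (Nat.pow_le_pow_left (by omega) q)
    _ = n ^ n := by
        rw [← pow_add]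
        congr 1
        omega

end Pool.Agent.Results.MP_4a756a_co.EntropyBound
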