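import Mathlib
import Pool.Agent.H40.Box

set_option autoImplicit false

namespace Pool.Agent.Results.MP_4a756a_co.UniformSqrtExp

/-- Uniform lower bound (independent of `n`) for families of pairwise disjoint boxes with the
`k`-piercing property: for `d ≥ 2`, `m ≥ 2k · exp(√(2d) - 2)`. -/
theorem result :
    ∀ (n d k m : ℕ), 2 ≤ d → 2 ≤ k → k ≤ n →
      ∀ (S : Fin m → Fin d → Finset (Fin n)),
        (∀ j i, (S j i).Nonempty) →
        (∀ j j', j ≠ j' → ∀ x : Fin d → Fin n,
          ¬ ((∀ l, x l ∈ S j l) ∧ (∀ l, x l ∈ S j' l))) →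
        (∀ (i : Fin d) (x : Fin d → Fin n),
          k ≤ (Finset.univ.filter
            (fun j : Fin m => ∃ t : Fin n, ∀ l : Fin d, Function.update x i t l ∈ S j l)).card) →
        2 * (k : ℝ) * Real.exp (Real.sqrt (2 * (d : ℝ)) - 2) ≤ (m : ℝ) := by
  intro n d k m hd hk hkn S hne hdis hpi
  obtain ⟨e, rfl⟩ : ∃ e, d = e + 2 := ⟨d - 2, by omega⟩
  have : Nonempty (Fin n) := ⟨⟨0, by omega⟩⟩
  have hgood : H40.Box.Good k (e + 2) (Finset.univ : Finset (Fin m)) S := by
    refine ⟨fun j _ i => hne j i, fun j _ j' _ h x => hdis j j' h x, fun i x => ?_⟩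
    exact ⟨_, Finset.subset_univ _, hpi i x, fun j hj => (Finset.mem_filter.1 hj).2⟩
  have := H40.Box.main hk e Finset.univ S hgood
  rw [Finset.card_univ, Fintype.card_fin] at this
  push_cast
  exact this

end Pool.Agent.Results.MP_4a756a_co.UniformSqrtExp
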